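import Pool.Agent.H626R3.CT.Stmts

set_option autoImplicit false

open scoped Classical symmDiff

/-!
Proof of `TSum`: the parity of the boundary of the square `[0, t k - 1]^2`.
-/

namespace Pool.Agent.H380R3.CT.TSumP

open Pool.Agent.H626R3.CT

theorem t_pos (j : ℕ) : 3 ≤ t j := by
  unfold t
  have h1 : 1 ≤ 2 * (j + 1) ^ 2 - 1 := by
    have : 1 ≤ (j + 1) ^ 2 := Nat.one_le_pow _ _ (Nat.succ_pos j)
    omega
  calc 3 = 3 ^ 1 := by norm_num
    _ ≤ _ := Nat.pow_le_pow_right (by norm_num) h1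

theorem n_eq (j : ℕ) : n j = 3 * t j := rfl

theorem n_dvd_t {j k : ℕ} (h : j < k) : n j ∣ t k := by
  have e1 : n j = 3 ^ (2 * (j + 1) ^ 2) := by
    unfold n t
    have : 1 ≤ 2 * (j + 1) ^ 2 := by
      have : 1 ≤ (j + 1) ^ 2 := Nat.one_le_pow _ _ (Nat.succ_pos j)
      omega
    rw [← Nat.pow_succ', Nat.succ_eq_add_one, Nat.sub_add_cancel this]
  rw [e1]
  unfold t
  apply Nat.pow_dvd_pow
  have h2 : (j + 1) ^ 2 + 1 ≤ (k + 1) ^ 2 := by
    have h3 : j + 1 < k + 1 := by omega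
    have h4 := Nat.pow_lt_pow_left h3 (n := 2) (by norm_num)
    omega
  omega

theorem t_mono {j k : ℕ} (h : j ≤ k) : t j ≤ t k := by
  unfold t
  apply Nat.pow_le_pow_right (by norm_num)
  have h4 := Nat.pow_le_pow_left (Nat.succ_le_succ h) 2
  simp only [Nat.succ_eq_add_one] at h4
  omega

theorem chi_cycle (u v w y : ℕ) (hu : u = 1 ∨ u = 2 ∨ u = 3) (hv : v = 1 ∨ v = 2 ∨ v = 3)
    (hw : w = 1 ∨ w = 2 ∨ w = 3) (hy : y = 1 ∨ y = 2 ∨ y = 3)
    (H : ¬ ((u = 1 ∨ v = 1 ∨ w = 1 ∨ y = 1) ∧ (u = 2 ∨ v = 2 ∨ w = 2 ∨ y = 2) ∧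
      (u = 3 ∨ v = 3 ∨ w = 3 ∨ y = 3))) :
    chi u v + chi v w + chi y w + chi u y = 0 := by
  rcases hu with rfl | rfl | rfl <;> rcases hv with rfl | rfl | rfl <;>
    rcases hw with rfl | rfl | rfl <;> rcases hy with rfl | rfl | rfl <;>
    first
      | (exfalso; revert H; decide)
      | (simp [chi]; done)
      | (simp [chi]; decide)

theorem sq_zero (lab : XX → ℕ) (hlab : ∀ x, lab x = 1 ∨ lab x = 2 ∨ lab x = 3)
    (hnear : ∀ x y z, Near x y → Near y z → Near x z → ¬ (lab x = 1 ∧ lab y = 2 ∧ lab z = 3))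
    (a b : ℕ) (hc : ∀ a' b', (a' = a ∨ a' = a + 1) → (b' = b ∨ b' = b + 1) →
      ∀ j, ¬ (mid j a' ∧ mid j b')) : sq (ext lab) a b = 0 := by
  have h00 := hc a b (Or.inl rfl) (Or.inl rfl)
  have h10 := hc (a + 1) b (Or.inr rfl) (Or.inl rfl)
  have h11 := hc (a + 1) (b + 1) (Or.inr rfl) (Or.inr rfl)
  have h01 := hc a (b + 1) (Or.inl rfl) (Or.inr rfl)
  have e00 : ext lab a b = lab ⟨a, b, h00⟩ := dif_pos h00
  have e10 : ext lab (a + 1) b = lab ⟨a + 1, b, h10⟩ := dif_pos h10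
  have e11 : ext lab (a + 1) (b + 1) = lab ⟨a + 1, b + 1, h11⟩ := dif_pos h11
  have e01 : ext lab a (b + 1) = lab ⟨a, b + 1, h01⟩ := dif_pos h01
  unfold Pool.Agent.H626R3.CT.sq
  rw [e00, e10, e11, e01]
  apply chi_cycle _ _ _ _ (hlab _) (hlab _) (hlab _) (hlab _)
  rintro ⟨h1, h2, h3⟩
  have key : ∀ x y : XX, (x.a = a ∨ x.a = a + 1) → (x.b = b ∨ x.b = b + 1) →
      (y.a = a ∨ y.a = a + 1) → (y.b = b ∨ y.b = b + 1) → Near x y := by
    intro x y hx1 hx2 hy1 hy2
    left
    unfold d1 Nat.dist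
    omega
  have hp : ∀ e : ℕ, (lab ⟨a, b, h00⟩ = e ∨ lab ⟨a + 1, b, h10⟩ = e ∨
      lab ⟨a + 1, b + 1, h11⟩ = e ∨ lab ⟨a, b + 1, h01⟩ = e) →
      ∃ x : XX, (x.a = a ∨ x.a = a + 1) ∧ (x.b = b ∨ x.b = b + 1) ∧ lab x = e := by
    intro e he
    rcases he with he | he | he | he
    · exact ⟨_, Or.inl rfl, Or.inl rfl, he⟩
    · exact ⟨_, Or.inr rfl, Or.inl rfl, he⟩
    · exact ⟨_, Or.inr rfl, Or.inr rfl, he⟩
    · exact ⟨_, Or.inl rfl, Or.inr rfl, he⟩
  obtain ⟨x, hxa, hxb, hx⟩ := hp 1 h1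
  obtain ⟨y, hya, hyb, hy⟩ := hp 2 h2
  obtain ⟨z, hza, hzb, hz⟩ := hp 3 h3
  exact hnear x y z (key x y hxa hxb hya hyb) (key y z hya hyb hza hzb)
    (key x z hxa hxb hza hzb) ⟨hx, hy, hz⟩

theorem not_inreg_large {k l a b : ℕ} (hkl : k ≤ l) (ha : a < t k - 1) : ¬ inreg l a b := by
  rintro ⟨⟨h1, -⟩, -⟩
  have h2 := t_mono hkl
  have h3 := t_pos k
  have h4 : a % n l = a := Nat.mod_eq_of_lt (by rw [n_eq]; omega)
  rw [h4] at h1
  omega

/-- coordinates of a point of a region -/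
theorem coord {j a : ℕ} (h1 : t j - 1 ≤ a % n j) (h2 : a % n j ≤ 2 * t j - 1) :
    ∃ i, i < t j + 1 ∧ a = n j * (a / n j) + (t j - 1) + i := by
  have h3 := t_pos j
  refine ⟨a % n j - (t j - 1), by omega, ?_⟩
  have h4 := Nat.div_add_mod a (n j)
  omega

theorem coord_mod {j A i : ℕ} (hi : i < t j + 1) :
    (n j * A + (t j - 1) + i) % n j = t j - 1 + i ∧ (n j * A + (t j - 1) + i) / n j = A := by
  have h3 := t_pos j
  have h4 : t j - 1 + i < n j := by rw [n_eq]; omega
  rw [add_assoc]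
  constructor
  · rw [Nat.mul_add_mod, Nat.mod_eq_of_lt h4]
  · rw [Nat.mul_add_div (by omega), Nat.div_eq_of_lt h4, add_zero]

theorem coord_lt {j k a i : ℕ} (hjk : j < k) (ha : a < t k - 1) (hi : i < t j + 1) :
    n j * (a / n j) + (t j - 1) + i < t k - 1 := by
  obtain ⟨c, hc⟩ := n_dvd_t hjk
  have h3 := t_pos j
  have h5 : a / n j < c := by
    apply Nat.div_lt_of_lt_mul
    rw [← hc]
    omega
  have h6 : n j * (a / n j) + n j ≤ t k := by
    rw [hc]
    calc n j * (a / n j) + n j = n j * (a / n j + 1) := by ring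
      _ ≤ n j * c := Nat.mul_le_mul_left _ h5
  have h7 := n_eq j
  omega

theorem ok : TSum := by
  intro hRect hFull hNest hRing k lab hlab hnear
  rw [← hRect (ext lab) 0 0 (t k - 1) (t k - 1)]
  simp only [zero_add]
  rw [← Finset.sum_product']
  let P := Finset.range (t k - 1) ×ˢ Finset.range (t k - 1)
  let J : ℕ × ℕ → Finset ℕ := fun z => (Finset.range k).filter fun j => inreg j z.1 z.2
  let key : ℕ × ℕ → ℕ × ℕ × ℕ := fun z =>
    if h : (J z).Nonempty then
      ((J z).max' h + 1, z.1 / n ((J z).max' h), z.2 / n ((J z).max' h))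
    else (0, z.1, z.2)
  have hJ : ∀ z j, j ∈ J z ↔ j < k ∧ inreg j z.1 z.2 := by
    intro z j
    simp [J]
  -- characterisation of the key
  have hkey1 : ∀ z ∈ P, ∀ j A B, key z = (j + 1, A, B) ↔
      j < k ∧ inreg j z.1 z.2 ∧ (∀ l, j < l → ¬ inreg l z.1 z.2) ∧ z.1 / n j = A ∧
        z.2 / n j = B := by
    intro z hz j A B
    have hz1 : z.1 < t k - 1 := Finset.mem_range.mp (Finset.mem_product.mp hz).1
    constructor
    · intro hk
      by_cases h : (J z).Nonempty
      · have e : key z = ((J z).max' h + 1, z.1 / n ((J z).max' h), z.2 / n ((J z).max' h)) :=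
          dif_pos h
        rw [e] at hk
        simp only [Prod.mk.injEq] at hk
        obtain ⟨h1, h2, h3⟩ := hk
        have h4 : (J z).max' h = j := by omega
        rw [h4] at h2 h3
        have h5 := (J z).max'_mem h
        rw [h4] at h5
        rw [hJ] at h5
        refine ⟨h5.1, h5.2, ?_, h2, h3⟩
        intro l hl hin
        by_cases hlk : l < k
        · have h6 := (J z).le_max' l ((hJ z l).mpr ⟨hlk, hin⟩)
          omega
        · exact not_inreg_large (not_lt.mp hlk) hz1 hin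
      · have e : key z = (0, z.1, z.2) := dif_neg h
        rw [e] at hk
        simp at hk
    · rintro ⟨h1, h2, h3, rfl, rfl⟩
      have h : (J z).Nonempty := ⟨j, (hJ z j).mpr ⟨h1, h2⟩⟩
      have e : key z = ((J z).max' h + 1, z.1 / n ((J z).max' h), z.2 / n ((J z).max' h)) :=
        dif_pos h
      have h4 : (J z).max' h = j := by
        apply le_antisymm
        · apply Finset.max'_le
          intro l hl
          by_contra hlj
          exact h3 l (not_le.mp hlj) ((hJ z l).mp hl).2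
        · exact Finset.le_max' _ _ ((hJ z j).mpr ⟨h1, h2⟩)
      rw [e, h4]
  have hsum : ∀ f : ℕ × ℕ → ZMod 2, (∀ q ∈ P.image key, ∑ z ∈ P.filter (fun z => key z = q), f z = 0) →
      ∑ z ∈ P, f z = 0 := by
    intro f hf
    rw [← Finset.sum_fiberwise_of_maps_to (t := P.image key) (g := key)
      (fun z hz => Finset.mem_image_of_mem _ hz)]
    exact Finset.sum_eq_zero hf
  apply hsum
  intro q hq
  obtain ⟨z, hz, rfl⟩ := Finset.mem_image.mp hq
  have hz1 : z.1 < t k - 1 := Finset.mem_range.mp (Finset.mem_product.mp hz).1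
  have hz2 : z.2 < t k - 1 := Finset.mem_range.mp (Finset.mem_product.mp hz).2
  by_cases h : (J z).Nonempty
  · obtain ⟨j, A, B, hkz⟩ : ∃ j A B, key z = (j + 1, A, B) := ⟨_, _, _, dif_pos h⟩
    obtain ⟨hjk, hin, hmax, hA, hB⟩ := (hkey1 z hz j A B).mp hkz
    have hfib : P.filter (fun z' => key z' = key z) =
        (Finset.range (t j + 1) ×ˢ Finset.range (t j + 1)).image
          (fun i => (n j * A + (t j - 1) + i.1, n j * B + (t j - 1) + i.2)) := by
      ext z'
      rw [Finset.mem_filter, Finset.mem_image, hkz]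
      constructor
      · rintro ⟨hz', hk'⟩
        obtain ⟨-, hin', -, hA', hB'⟩ := (hkey1 z' hz' j A B).mp hk'
        obtain ⟨i1, hi1, e1⟩ := coord hin'.1.1 hin'.1.2
        obtain ⟨i2, hi2, e2⟩ := coord hin'.2.1 hin'.2.2
        rw [hA'] at e1
        rw [hB'] at e2
        exact ⟨(i1, i2), Finset.mem_product.mpr ⟨Finset.mem_range.mpr hi1,
          Finset.mem_range.mpr hi2⟩, Prod.ext e1.symm e2.symm⟩
      · rintro ⟨⟨i1, i2⟩, hi, rfl⟩
        have hi1 : i1 < t j + 1 := Finset.mem_range.mp (Finset.mem_product.mp hi).1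
        have hi2 : i2 < t j + 1 := Finset.mem_range.mp (Finset.mem_product.mp hi).2
        have hP : (n j * A + (t j - 1) + i1, n j * B + (t j - 1) + i2) ∈ P := by
          refine Finset.mem_product.mpr ⟨Finset.mem_range.mpr ?_, Finset.mem_range.mpr ?_⟩
          · rw [← hA]
            exact coord_lt hjk hz1 hi1
          · rw [← hB]
            exact coord_lt hjk hz2 hi2
        refine ⟨hP, ?_⟩
        obtain ⟨m1, d1⟩ := coord_mod (A := A) hi1
        obtain ⟨m2, d2⟩ := coord_mod (A := B) hi2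
        have hin' : inreg j (n j * A + (t j - 1) + i1) (n j * B + (t j - 1) + i2) := by
          have h3 := t_pos j
          refine ⟨⟨?_, ?_⟩, ⟨?_, ?_⟩⟩
          · rw [m1]; omega
          · rw [m1]; omega
          · rw [m2]; omega
          · rw [m2]; omega
        refine (hkey1 _ hP j A B).mpr ⟨hjk, hin', ?_, d1, d2⟩
        intro l hl hl'
        exact hmax l hl ((hNest j l A B hl _ _ _ _ hin hin' hA d1 hB d2).mpr hl')
    rw [hfib, Finset.sum_image, Finset.sum_product, hRect]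
    · apply hRing lab hlab hnear
      intro l hl hl'
      have h0 : 0 < t j + 1 := Nat.succ_pos _
      obtain ⟨m1, d1⟩ := coord_mod (A := A) h0
      obtain ⟨m2, d2⟩ := coord_mod (A := B) h0
      rw [add_zero] at m1 d1 m2 d2
      have hin' : inreg j (n j * A + (t j - 1)) (n j * B + (t j - 1)) := by
        have h3 := t_pos j
        refine ⟨⟨?_, ?_⟩, ⟨?_, ?_⟩⟩
        · rw [m1]; omega
        · rw [m1]; omega
        · rw [m2]; omega
        · rw [m2]; omega
      exact hmax l hl ((hNest j l A B hl _ _ _ _ hin hin' hA d1 hB d2).mpr hl')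
    · rintro ⟨i1, i2⟩ - ⟨i1', i2'⟩ - he
      simp only [Prod.mk.injEq] at he
      ext
      · show i1 = i1'
        omega
      · show i2 = i2'
        omega
  · apply Finset.sum_eq_zero
    intro z' hz'
    rw [Finset.mem_filter] at hz'
    obtain ⟨hz'P, hk'⟩ := hz'
    have e : key z = (0, z.1, z.2) := dif_neg h
    have h' : ¬ (J z').Nonempty := by
      intro h'
      have e' : key z' = ((J z').max' h' + 1, z'.1 / n ((J z').max' h'),
        z'.2 / n ((J z').max' h')) := dif_pos h'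
      rw [e, e'] at hk'
      simp at hk'
    have hz1' : z'.1 < t k - 1 := Finset.mem_range.mp (Finset.mem_product.mp hz'P).1
    have hz2' : z'.2 < t k - 1 := Finset.mem_range.mp (Finset.mem_product.mp hz'P).2
    apply sq_zero lab hlab hnear
    apply hFull k z'.1 z'.2 (by omega) (by omega)
    intro j hj hin
    exact h' ⟨j, (hJ z' j).mpr ⟨hj, hin⟩⟩

end Pool.Agent.H380R3.CT.TSumP
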